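import Mathlib
import Pool.Agent.V114.DivPowPi

/-!
A morphism of nearly finitely presented modules whose kernel is not nearly finitely presented.
-/

namespace Pool.Agent.Results.MP_ae9641_al.NfpKernel

open Pool.Agent.V114.DivPow

noncomputable section

section general

variable {k : Type} [CommRing k] {D : DivData k}

/-- pieces of the truncation -/
def truncSub (n : ℤ) (M : GrMod k D) (j : ℤ) : Submodule k (M.M j) where
  carrier := {v | j < n → v = 0}
  add_mem' := fun {a b} ha hb h => by rw [ha h, hb h, add_zero]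
  zero_mem' := fun _ => rfl
  smul_mem' := fun c v hv h => by rw [hv h, smul_zero]

/-- `τ_{≥ n} M` -/
def trunc (n : ℤ) (M : GrMod k D) : GrMod k D where
  M j := truncSub n M j
  op m i j h := (M.op m i j h).restrict (fun v hv hj => by
    rw [hv (by omega), map_zero])
  law := ⟨fun i h v => Subtype.ext (M.op_zero i h v),
    fun a b i j l hij hjl hil v => Subtype.ext (M.op_op a b i j l hij hjl hil v)⟩

lemma isNfp_trunc (n : ℤ) (M : GrMod k D) (hM : IsFinPres M) (hk : IsNoetherianRing k)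
    (hfin : ∀ j, Module.Finite k (M.M j)) : IsNfp (trunc n M) := by
  refine ⟨fun j => ?_, ⟨n, fun j hj => ?_⟩, M, hM, n, ?_⟩
  · have := isNoetherian_of_isNoetherianRing_of_finite k (M.M j)
    exact Module.IsNoetherian.finite k (truncSub n M j)
  · refine ⟨fun a b => ?_⟩
    apply Subtype.ext
    rw [a.2 hj, b.2 hj]
  · refine ⟨fun j hj => LinearEquiv.ofBijective (truncSub n M j).subtype
      ⟨Subtype.val_injective, fun v => ⟨⟨v, fun h => absurd hj (by omega)⟩, rfl⟩⟩, ?_⟩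
    intro m i j hi hj h v
    rfl

lemma isFinPres_free {r : ℕ} (d : Fin r → ℤ) : IsFinPres (Free D d) := by
  refine ⟨0, r, fun t => t.elim0, d, freeDesc _ _ (fun t => t.elim0),
    ⟨fun j => LinearMap.id, fun _ _ _ _ _ => rfl⟩, fun j => ⟨fun v => ⟨v, rfl⟩, ?_⟩⟩
  rw [LinearMap.ker_id]
  symm
  rw [LinearMap.range_eq_bot]
  apply LinearMap.ext
  intro v
  have hv : v = 0 := Subtype.ext (Subsingleton.elim _ _)
  rw [hv, map_zero, map_zero]

lemma finite_free [IsNoetherianRing k] {r : ℕ} (d : Fin r → ℤ) (j : ℤ) :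
    Module.Finite k ((Free D d).M j) :=
  Module.IsNoetherian.finite k (FreeSub k d j)

end general

/-! ### Valuations -/

/-- `v_5(n!)` -/
def nu (n : ℕ) : ℕ := padicValNat 5 n.factorial
/-- `v_5(j)` -/
def val (j : ℤ) : ℕ := padicValNat 5 j.toNat
/-- square roots of `-1` modulo `5^(v+1)` -/
def cc (v : ℕ) : ℤ := 2 ^ (5 ^ v)

lemma cc_sq (v : ℕ) : (5 : ℤ) ^ (v + 1) ∣ cc v ^ 2 + 1 := by
  have h := dvd_sub_pow_of_dvd_sub (p := 5) (a := (4 : ℤ)) (b := -1) (by norm_num) v
  have h2 : (4 : ℤ) ^ 5 ^ v - (-1) ^ 5 ^ v = cc v ^ 2 + 1 := by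
    have hodd : Odd (5 ^ v) := Odd.pow (by decide)
    rw [hodd.neg_one_pow, cc, ← pow_mul, mul_comm (5 ^ v) 2, pow_mul]
    norm_num
  rw [h2] at h
  exact_mod_cast h

lemma cc_succ (v : ℕ) : (5 : ℤ) ^ (v + 1) ∣ cc (v + 1) - cc v := by
  have h := dvd_sub_pow_of_dvd_sub (p := 5) (a := (32 : ℤ)) (b := 2) (by norm_num) v
  have h2 : (32 : ℤ) ^ 5 ^ v - 2 ^ 5 ^ v = cc (v + 1) - cc v := by
    rw [cc, cc, pow_succ' 5 v, pow_mul]
    norm_num
  rw [h2] at h
  exact_mod_cast h

lemma cc_le (v w : ℕ) (h : v ≤ w) : (5 : ℤ) ^ v ∣ cc w - cc v := by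
  induction w, h using Nat.le_induction with
  | base => simp
  | succ w hw ih =>
    have : cc (w + 1) - cc v = (cc (w + 1) - cc w) + (cc w - cc v) := by ring
    rw [this]
    exact dvd_add ((pow_dvd_pow 5 (by omega)).trans (cc_succ w)) ih

instance fact5 : Fact (Nat.Prime 5) := ⟨Nat.prime_five⟩

lemma nu_choose (a b : ℕ) : padicValNat 5 ((a + b).choose a) + nu a + nu b = nu (a + b) := by
  have h := Nat.choose_mul_factorial_mul_factorial (n := a + b) (k := a) (by omega)
  rw [Nat.add_sub_cancel_left] at h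
  unfold nu
  rw [← h, padicValNat.mul, padicValNat.mul]
  · exact (Nat.choose_pos (by omega)).ne'
  · exact a.factorial_ne_zero
  · exact mul_ne_zero (Nat.choose_pos (by omega)).ne' a.factorial_ne_zero
  · exact b.factorial_ne_zero

lemma nu_succ (n : ℕ) : nu (n + 1) = padicValNat 5 (n + 1) + nu n := by
  unfold nu
  rw [Nat.factorial_succ, padicValNat.mul (by omega) n.factorial_ne_zero]

lemma nu_mono {m n : ℕ} (h : m ≤ n) : nu m ≤ nu n := by
  induction n, h using Nat.le_induction with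
  | base => exact le_rfl
  | succ n _ ih => rw [nu_succ]; omega

lemma nu_pow (m R : ℕ) (h : m < 5 ^ R) : nu m + R ≤ nu (5 ^ R) := by
  obtain ⟨n, hn⟩ : ∃ n, 5 ^ R = n + 1 := ⟨5 ^ R - 1, by omega⟩
  have h1 : nu (5 ^ R) = R + nu n := by
    rw [hn, nu_succ, ← hn, padicValNat.prime_pow]
  have h2 : nu m ≤ nu n := nu_mono (by omega)
  omega

lemma val_pow (R : ℕ) : val ((5 : ℤ) ^ R) = R := by
  unfold val
  have : ((5 : ℤ) ^ R).toNat = 5 ^ R := by
    have h : ((5 : ℤ) ^ R) = ((5 ^ R : ℕ) : ℤ) := by push_cast; rfl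
    rw [h, Int.toNat_natCast]
  rw [this, padicValNat.prime_pow]

/-- divisibility needed for compatibility of `f` -/
lemma val_choose (n i : ℕ) (hi : i ≠ 0) :
    padicValNat 5 (n + i) ≤ padicValNat 5 ((n + i).choose n) +
      min (padicValNat 5 (n + i)) (padicValNat 5 i) := by
  rcases le_total (padicValNat 5 (n + i)) (padicValNat 5 i) with h | h
  · rw [min_eq_left h]; omega
  · rw [min_eq_right h]
    -- `(n+i) ∣ gcd (n+i) n * choose`
    have hg : (n + i) ∣ Nat.gcd (n + i) i * (n + i).choose i := by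
      rw [← Nat.gcd_mul_right]
      refine Nat.dvd_gcd (dvd_mul_right _ _) ?_
      obtain ⟨i, rfl⟩ : ∃ t, i = t + 1 := ⟨i - 1, by omega⟩
      refine ⟨(n + i).choose i, ?_⟩
      have := Nat.add_one_mul_choose_eq (n + i) i
      rw [← add_assoc, this]; ring
    have hcs : (n + i).choose i = (n + i).choose n := (Nat.choose_symm_add).symm
    have hc0 : (n + i).choose i ≠ 0 := (Nat.choose_pos (by omega)).ne'
    have hg0 : Nat.gcd (n + i) i ≠ 0 := Nat.gcd_ne_zero_right hi
    have h1 : padicValNat 5 (n + i) ≤ padicValNat 5 (Nat.gcd (n + i) i * (n + i).choose i) :=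
      padicValNat_dvd_iff_le (mul_ne_zero hg0 hc0) |>.1 (pow_padicValNat_dvd.trans hg)
    rw [padicValNat.mul hg0 hc0, hcs] at h1
    have h2 : padicValNat 5 (Nat.gcd (n + i) i) ≤ padicValNat 5 i :=
      padicValNat_dvd_iff_le hi |>.1 (pow_padicValNat_dvd.trans (Nat.gcd_dvd_right _ _))
    omega

/-! ### The key sequence lemma -/

section seq

variable {k : Type} [CommRing k] [IsDomain k]

lemma seq_lemma (h5 : (5 : k) ≠ 0) (hsep : ∀ x : k, (∀ R0 : ℕ, ∃ R ≥ R0, (5 : k) ^ R ∣ x) → x = 0)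
    (hreal : ∀ a b : k, a ^ 2 + b ^ 2 = 0 → a = 0 ∧ b = 0)
    (d j0 : ℤ) (hj0 : 1 ≤ j0) (hdj : d ≤ j0) (vec : ℤ → Fin 2 → k)
    (H1 : ∀ j l : ℤ, j0 ≤ j → j ≤ l → ∀ s, (5 : k) ^ (nu l.toNat + nu (j - d).toNat) * vec j s =
      5 ^ (nu (l - d).toNat + nu j.toNat) * vec l s)
    (H2 : ∀ j : ℤ, j0 ≤ j → (5 : k) ^ val j ∣ vec j 0 + (cc (val j) : k) * vec j 1) :
    ∃ R0 : ℕ, ∀ R ≥ R0, ∀ s, (5 : k) ∣ vec (5 ^ R) s := by
  -- powers of five exceed bounds
  have hbig : ∀ R : ℕ, j0.toNat + d.natAbs ≤ R → j0 ≤ (5 : ℤ) ^ R ∧ d < (5 : ℤ) ^ R := by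
    intro R hR
    have h1 : R < 5 ^ R := Nat.lt_pow_self (by norm_num)
    have h2 : ((5 ^ R : ℕ) : ℤ) = (5 : ℤ) ^ R := by push_cast; rfl
    have h3 : (R : ℤ) < (5 : ℤ) ^ R := by rw [← h2]; exact_mod_cast h1
    constructor <;> omega
  have htn : ∀ R : ℕ, ((5 : ℤ) ^ R).toNat = 5 ^ R := by
    intro R
    have h : ((5 : ℤ) ^ R) = ((5 ^ R : ℕ) : ℤ) := by push_cast; rfl
    rw [h, Int.toNat_natCast]
  have hp : ∀ n : ℕ, (5 : k) ^ n ≠ 0 := fun n => pow_ne_zero n h5
  rcases lt_trichotomy d 0 with hd | hd | hd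
  · -- negative shift: everything vanishes
    have hz : ∀ j ≥ j0, ∀ s, vec j s = 0 := by
      intro j hj s
      have h0 : (5 : k) ^ nu (j - d).toNat * vec j s = 0 := by
        apply hsep
        intro R0
        refine ⟨R0 + j.toNat + 1, by omega, ?_⟩
        set R := R0 + j.toNat + 1 with hR
        have hlt : R < 5 ^ R := Nat.lt_pow_self (by norm_num)
        have hlt' : (R : ℤ) < (5 : ℤ) ^ R := by
          have h2 : ((5 ^ R : ℕ) : ℤ) = (5 : ℤ) ^ R := by push_cast; rfl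
          rw [← h2]; exact_mod_cast hlt
        have hl := H1 j ((5 : ℤ) ^ R - 1) hj (by omega) s
        have e1 : ((5 : ℤ) ^ R - 1).toNat < 5 ^ R := by
          have := htn R
          omega
        have e2 : 5 ^ R ≤ ((5 : ℤ) ^ R - 1 - d).toNat := by
          have := htn R
          omega
        have e3 := nu_pow _ _ e1
        have e4 := nu_mono e2
        obtain ⟨t, ht⟩ : ∃ t, nu ((5 : ℤ) ^ R - 1 - d).toNat = nu ((5 : ℤ) ^ R - 1).toNat + (R + t) :=
          ⟨nu ((5 : ℤ) ^ R - 1 - d).toNat - (nu ((5 : ℤ) ^ R - 1).toNat + R), by omega⟩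
        rw [ht] at hl
        have hl' : (5 : k) ^ nu ((5 : ℤ) ^ R - 1).toNat * (5 ^ nu (j - d).toNat * vec j s) =
            5 ^ nu ((5 : ℤ) ^ R - 1).toNat *
              (5 ^ R * (5 ^ (t + nu j.toNat) * vec ((5 : ℤ) ^ R - 1) s)) := by
          linear_combination hl
        rw [mul_left_cancel₀ (hp _) hl']
        exact dvd_mul_right _ _
      exact (mul_eq_zero.1 h0).resolve_left (hp _)
    refine ⟨j0.toNat + d.natAbs, fun R hR s => ?_⟩
    rw [hz _ (hbig R hR).1]
    exact dvd_zero _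
  · -- zero shift: constant, hence zero
    subst hd
    have hconst : ∀ l ≥ j0, ∀ s, vec j0 s = vec l s := by
      intro l hl s
      have h := H1 j0 l le_rfl hl s
      rw [sub_zero, sub_zero] at h
      exact mul_left_cancel₀ (hp _) h
    have hsum : vec j0 0 ^ 2 + vec j0 1 ^ 2 = 0 := by
      apply hsep
      intro R0
      refine ⟨R0 + j0.toNat, by omega, ?_⟩
      set R := R0 + j0.toNat with hR
      have hb : j0 ≤ (5 : ℤ) ^ R := (hbig R (by simp [hR])).1
      have h2 := H2 _ hb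
      rw [val_pow, ← hconst _ hb, ← hconst _ hb] at h2
      have h3 : (5 : k) ^ R ∣ ((cc R ^ 2 + 1 : ℤ) : k) := by
        obtain ⟨c, hc⟩ := (pow_dvd_pow (5 : ℤ) (by omega : R ≤ R + 1)).trans (cc_sq R)
        rw [hc]; push_cast; exact dvd_mul_right _ _
      have h4 : vec j0 0 ^ 2 + vec j0 1 ^ 2 =
          (vec j0 0 + (cc R : k) * vec j0 1) * (vec j0 0 - (cc R : k) * vec j0 1) +
          ((cc R ^ 2 + 1 : ℤ) : k) * vec j0 1 ^ 2 := by push_cast; ring
      rw [h4]
      exact dvd_add (Dvd.dvd.mul_right h2 _) (Dvd.dvd.mul_right h3 _)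
    obtain ⟨ha, hb⟩ := hreal _ _ hsum
    refine ⟨j0.toNat, fun R hR s => ?_⟩
    have hb' : j0 ≤ (5 : ℤ) ^ R := (hbig R (by simpa using hR)).1
    rw [← hconst _ hb']
    fin_cases s
    · change (5 : k) ∣ vec j0 0
      rw [ha]; exact dvd_zero _
    · change (5 : k) ∣ vec j0 1
      rw [hb]; exact dvd_zero _
  · -- positive shift
    refine ⟨j0.toNat + d.natAbs + nu j0.toNat + 1, fun R hR s => ?_⟩
    obtain ⟨hb1, hb2⟩ := hbig R (by omega)
    have h := H1 j0 ((5 : ℤ) ^ R) le_rfl hb1 s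
    have e1 : ((5 : ℤ) ^ R - d).toNat < 5 ^ R := by
      have := htn R
      omega
    have e2 := nu_pow _ _ e1
    rw [htn] at h
    obtain ⟨t, ht⟩ : ∃ t, nu (5 ^ R) = nu ((5 : ℤ) ^ R - d).toNat + (nu j0.toNat + (1 + t)) :=
      ⟨nu (5 ^ R) - (nu ((5 : ℤ) ^ R - d).toNat + (nu j0.toNat + 1)), by omega⟩
    rw [ht, add_assoc, pow_add, mul_assoc, pow_add (5 : k) (nu ((5 : ℤ) ^ R - d).toNat), mul_assoc] at h
    have h' := mul_left_cancel₀ (hp _) h
    rw [add_assoc, pow_add, mul_assoc] at h'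
    have h'' := mul_left_cancel₀ (hp _) h'
    rw [← h'', add_assoc, pow_add, mul_assoc, pow_one]
    exact dvd_mul_right _ _

end seq

/-! ### The morphism -/

section morphism

variable (k : Type) [CommRing k]

/-- the algebra -/
abbrev DD : DivData k := piData (pi5 k)

/-- `D^2` -/
abbrev F2 : GrMod k (DD k) := Free (DD k) (fun _ : Fin 2 => 0)
/-- `D` -/
abbrev F1 : GrMod k (DD k) := Free (DD k) (fun _ : Fin 1 => 0)

/-- the element `x^{[1]}` -/
def rho (_ : Fin 1) : (F1 k).M 1 := ⟨fun _ => 1, fun s hs => by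
  exact absurd hs (by norm_num)⟩

/-- the presentation `D[-1] → D` of `D/(x^{[1]})` -/
def pres : GrHom (Free (DD k) (fun _ : Fin 1 => 1)) (F1 k) :=
  freeDesc (fun _ : Fin 1 => (1 : ℤ)) (F1 k) (rho k)

/-- `D/(x^{[1]})` -/
def CC : GrMod k (DD k) := (pres k).cokernel

variable {k}

lemma DD_c (n m : ℕ) : (DD k).c n m = 5 ^ padicValNat 5 ((n + m).choose n) := pi5_c n m

lemma DD_c_right (n : ℕ) : (DD k).c n 0 = 1 := by
  rw [DD_c]; simp

lemma pres_apply (j : ℤ) (hj : 1 ≤ j) (v : (Free (DD k) (fun _ : Fin 1 => 1)).M j) :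
    ((pres k).f j v).1 0 = v.1 0 * 5 ^ val j := by
  change ((∑ t : Fin 1, if h : (1 : ℤ) ≤ j then
    v.1 t • (F1 k).op (j - 1).toNat 1 j (by omega) (rho k t) else 0 : (F1 k).M j)).1 0 = _
  rw [Fintype.sum_unique, dif_pos hj]
  change v.1 0 * ((DD k).c (j - 1).toNat ((1 : ℤ) - 0).toNat * 1) = _
  rw [mul_one, DD_c]
  congr 2
  have h1 : ((1 : ℤ) - 0).toNat = 1 := by norm_num
  have h2 : (j - 1).toNat + 1 = j.toNat := by omega
  rw [h1, h2]
  unfold val
  congr 1
  have h3 : (j - 1).toNat = j.toNat - 1 := by omega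
  rw [h3]
  have : j.toNat ≠ 0 := by omega
  obtain ⟨n, hn⟩ : ∃ n, j.toNat = n + 1 := ⟨j.toNat - 1, by omega⟩
  rw [hn, Nat.add_sub_cancel]
  exact Nat.choose_succ_self_right n

lemma mem_range_iff (j : ℤ) (hj : 1 ≤ j) (x : (F1 k).M j) :
    x ∈ LinearMap.range ((pres k).f j) ↔ (5 : k) ^ val j ∣ x.1 0 := by
  constructor
  · rintro ⟨v, rfl⟩
    rw [pres_apply j hj]
    exact dvd_mul_left _ _
  · rintro ⟨c, hc⟩
    refine ⟨⟨fun _ => c, fun s hs => absurd hs (by change ¬ (j < 1); omega)⟩, ?_⟩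
    apply Subtype.ext
    ext1 t
    have ht : t = 0 := Subsingleton.elim _ _
    subst ht
    rw [pres_apply j hj, hc, mul_comm]

/-- the combination `v_0 + c v_1` -/
def comb (j : ℤ) : (F2 k).M j →ₗ[k] (F1 k).M j where
  toFun v := ⟨fun _ => v.1 0 + (cc (val j) : k) * v.1 1, fun s hs => by
    change v.1 0 + (cc (val j) : k) * v.1 1 = 0
    rw [v.2 0 hs, v.2 1 hs]; ring⟩
  map_add' v w := by
    apply Subtype.ext; ext1 t
    change (v.1 0 + w.1 0) + (cc (val j) : k) * (v.1 1 + w.1 1) =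
      (v.1 0 + (cc (val j) : k) * v.1 1) + (w.1 0 + (cc (val j) : k) * w.1 1)
    ring
  map_smul' c v := by
    apply Subtype.ext; ext1 t
    change c * v.1 0 + (cc (val j) : k) * (c * v.1 1) = c * (v.1 0 + (cc (val j) : k) * v.1 1)
    ring

/-- compatibility up to relations -/
lemma comb_comm (n : ℕ) (i j : ℤ) (h : i + n = j) (hi : 1 ≤ i) (v : (F2 k).M i) :
    comb j ((F2 k).op n i j h v) - (F1 k).op n i j h (comb i v) ∈
      LinearMap.range ((pres k).f j) := by
  rw [mem_range_iff j (by omega)]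
  change (5 : k) ^ val j ∣ (((DD k).c n (i - 0).toNat * v.1 0 +
    (cc (val j) : k) * ((DD k).c n (i - 0).toNat * v.1 1)) -
    (DD k).c n (i - 0).toNat * (v.1 0 + (cc (val i) : k) * v.1 1))
  have h1 : (((DD k).c n (i - 0).toNat * v.1 0 +
    (cc (val j) : k) * ((DD k).c n (i - 0).toNat * v.1 1)) -
    (DD k).c n (i - 0).toNat * (v.1 0 + (cc (val i) : k) * v.1 1)) =
    (DD k).c n (i - 0).toNat * ((cc (val j) - cc (val i) : ℤ) : k) * v.1 1 := by
    push_cast; ring
  rw [h1, DD_c]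
  apply Dvd.dvd.mul_right
  have hj : j.toNat = n + i.toNat := by omega
  rw [sub_zero]
  have h2 := val_choose n i.toNat (by omega)
  rw [← hj] at h2
  have h3 : (5 : ℤ) ^ min (val j) (val i) ∣ cc (val j) - cc (val i) := by
    rcases le_total (val j) (val i) with h | h
    · rw [min_eq_left h, ← dvd_neg, neg_sub]
      exact cc_le _ _ h
    · rw [min_eq_right h]
      exact cc_le _ _ h
  obtain ⟨c, hc⟩ := h3
  rw [hc]
  push_cast
  rw [← mul_assoc, ← pow_add]
  apply Dvd.dvd.mul_right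
  apply pow_dvd_pow
  rw [← hj]
  exact h2

variable (k)

/-- the component of `f` -/
def fcomp (j : ℤ) : (trunc 1 (F2 k)).M j →ₗ[k] (trunc 1 (CC k)).M j :=
  LinearMap.codRestrict (truncSub 1 (CC k) j)
    ((Submodule.mkQ (LinearMap.range ((pres k).f j))).comp
      ((comb j).comp (truncSub 1 (F2 k) j).subtype))
    (fun v hj => by
      change Submodule.mkQ (LinearMap.range ((pres k).f j)) (comb j v.1) = 0
      rw [v.2 hj, map_zero, map_zero])

/-- the morphism `f : τ_{≥ 1} D^2 → τ_{≥ 1} (D/(x^{[1]}))` -/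
def ff : GrHom (trunc 1 (F2 k)) (trunc 1 (CC k)) where
  f := fcomp k
  comm n i j h v := by
    apply Subtype.ext
    by_cases hi : i < 1
    · have h0 : v = 0 := Subtype.ext (v.2 hi)
      rw [h0]; simp
    · change (Submodule.Quotient.mk (comb j ((F2 k).op n i j h v.1)) :
        (F1 k).M j ⧸ LinearMap.range ((pres k).f j)) =
        Submodule.Quotient.mk ((F1 k).op n i j h (comb i v.1))
      rw [Submodule.Quotient.eq]
      exact comb_comm n i j h (by omega) v.1

variable {k}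

/-- coordinates of elements of the kernel -/
def coord (j : ℤ) (w : (ff k).kernel.M j) (s : Fin 2) : k := w.1.1.1 s

lemma coord_dvd (j : ℤ) (hj : 1 ≤ j) (w : (ff k).kernel.M j) :
    (5 : k) ^ val j ∣ coord j w 0 + (cc (val j) : k) * coord j w 1 := by
  have h := LinearMap.mem_ker.1 w.2
  have h2 : (Submodule.Quotient.mk (comb j w.1.1) :
        (F1 k).M j ⧸ LinearMap.range ((pres k).f j)) = 0 := congrArg Subtype.val h
  rw [Submodule.Quotient.mk_eq_zero, mem_range_iff j hj] at h2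
  exact h2

/-- the kernel element `(-c, 1)` -/
lemma exists_elt (j : ℤ) (hj : 1 ≤ j) : ∃ w : (ff k).kernel.M j, coord j w 1 = 1 := by
  let v : (F2 k).M j := ⟨![-(cc (val j) : k), 1], fun s hs => absurd hs (by
    change ¬ (j < 0); omega)⟩
  have hv : (ff k).f j (⟨v, fun h => absurd hj (by omega)⟩ : (trunc 1 (F2 k)).M j) = 0 := by
    apply Subtype.ext
    change (Submodule.Quotient.mk (comb j v) :
        (F1 k).M j ⧸ LinearMap.range ((pres k).f j)) = 0
    rw [Submodule.Quotient.mk_eq_zero, mem_range_iff j hj]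
    change (5 : k) ^ val j ∣ (-(cc (val j) : k)) + (cc (val j) : k) * 1
    simp
  exact ⟨⟨_, LinearMap.mem_ker.2 hv⟩, rfl⟩

lemma coord_smul (j : ℤ) (c : k) (w : (ff k).kernel.M j) (s : Fin 2) :
    coord j (c • w) s = c * coord j w s := rfl

lemma coord_op (n : ℕ) (i j : ℤ) (h : i + n = j) (w : (ff k).kernel.M i) (s : Fin 2) :
    coord j ((ff k).kernel.op n i j h w) s = (DD k).c n i.toNat * coord i w s := by
  change (DD k).c n (i - 0).toNat * _ = _
  rw [sub_zero]; rfl

/-- coordinates as an additive map -/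
def coordHom (j : ℤ) (s : Fin 2) : (ff k).kernel.M j →+ k :=
  ⟨⟨fun w => coord j w s, rfl⟩, fun _ _ => rfl⟩

theorem kernel_not_nfp [IsDomain k] (h5 : (5 : k) ≠ 0) (hu : ¬ IsUnit (5 : k))
    (hsep : ∀ x : k, (∀ R0 : ℕ, ∃ R ≥ R0, (5 : k) ^ R ∣ x) → x = 0)
    (hreal : ∀ a b : k, a ^ 2 + b ^ 2 = 0 → a = 0 ∧ b = 0) : ¬ IsNfp (ff k).kernel := by
  rintro ⟨_, _, N, ⟨q, r, e, d, f, g, hg⟩, n1, φ, hφ⟩
  -- generators of `N`
  let gen : ∀ t : Fin r, (Free (DD k) d).M (d t) := fun t => ⟨Pi.single t 1, fun s hs => by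
    rw [Pi.single_eq_of_ne]
    rintro rfl
    omega⟩
  -- threshold for each generator
  let j0 : Fin r → ℤ := fun t => max (max n1 (d t)) 1
  -- the elements of the kernel coming from the generators
  let w : ∀ (t : Fin r) (j : ℤ), j0 t ≤ j → (ff k).kernel.M j := fun t j hj =>
    (φ j (by simp only [j0] at hj; omega)).symm
      (g.f j ((Free (DD k) d).op (j - d t).toNat (d t) j (by simp only [j0] at hj; omega) (gen t)))
  let vec : Fin r → ℤ → Fin 2 → k := fun t j s => if hj : j0 t ≤ j then coord j (w t j hj) s else 0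
  have hvec : ∀ t j (hj : j0 t ≤ j) s, vec t j s = coord j (w t j hj) s := fun t j hj s => dif_pos hj
  -- the basic relation
  have hrel : ∀ t (j l : ℤ) (hj : j0 t ≤ j) (hl : j ≤ l) (s : Fin 2),
      (DD k).c (l - j).toNat j.toNat * vec t j s =
        (DD k).c (l - j).toNat (j - d t).toNat * vec t l s := by
    intro t j l hj hl s
    have hjl : j0 t ≤ l := hj.trans hl
    have hn1 : n1 ≤ j := by simp only [j0] at hj; omega
    have hdj : d t ≤ j := by simp only [j0] at hj; omega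
    have h1 : (ff k).kernel.op (l - j).toNat j l (by omega) (w t j hj) =
        (DD k).c (l - j).toNat (j - d t).toNat • w t l hjl := by
      apply (φ l (by omega)).injective
      rw [hφ (l - j).toNat j l hn1 (by omega) (by omega), LinearEquiv.apply_symm_apply, map_smul,
        LinearEquiv.apply_symm_apply, ← g.comm,
        (Free (DD k) d).op_op (l - j).toNat (j - d t).toNat (d t) j l (by omega) (by omega)
          (by omega), map_smul]
      congr 2
      have : ∀ (a b : ℕ) (hab : a = b) (ha : d t + a = l) (hb : d t + b = l),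
          (Free (DD k) d).op a (d t) l ha (gen t) = (Free (DD k) d).op b (d t) l hb (gen t) := by
        rintro a b rfl _ _; rfl
      rw [this _ _ (show (l - j).toNat + (j - d t).toNat = (l - d t).toNat by omega)]
    have h2 := congrArg (fun z => coord l z s) h1
    simp only [coord_op, coord_smul] at h2
    rw [hvec t j hj, hvec t l hjl]
    exact h2
  -- rewrite with `nu`
  have hH1 : ∀ t (j l : ℤ), j0 t ≤ j → j ≤ l → ∀ s,
      (5 : k) ^ (nu l.toNat + nu (j - d t).toNat) * vec t j s =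
        5 ^ (nu (l - d t).toNat + nu j.toNat) * vec t l s := by
    intro t j l hj hl s
    have hdj : d t ≤ j := by simp only [j0] at hj; omega
    have h1j : 1 ≤ j := by simp only [j0] at hj; omega
    have h := hrel t j l hj hl s
    rw [DD_c, DD_c] at h
    have e1 := nu_choose (l - j).toNat j.toNat
    have e2 := nu_choose (l - j).toNat (j - d t).toNat
    have e3 : (l - j).toNat + j.toNat = l.toNat := by omega
    have e4 : (l - j).toNat + (j - d t).toNat = (l - d t).toNat := by omega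
    rw [e3] at e1 h
    rw [e4] at e2 h
    rw [← e1, ← e2]
    linear_combination (5 : k) ^ (nu (l - j).toNat + nu j.toNat + nu (j - d t).toNat) * h
  have hH2 : ∀ t (j : ℤ), j0 t ≤ j → (5 : k) ^ val j ∣ vec t j 0 + (cc (val j) : k) * vec t j 1 := by
    intro t j hj
    rw [hvec t j hj, hvec t j hj]
    exact coord_dvd j (by simp only [j0] at hj; omega) _
  have hseq : ∀ t, ∃ R0 : ℕ, ∀ R ≥ R0, ∀ s, (5 : k) ∣ vec t (5 ^ R) s := fun t =>
    seq_lemma h5 hsep hreal (d t) (j0 t) (by simp only [j0]; omega) (by simp only [j0]; omega)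
      (vec t) (hH1 t) (hH2 t)
  choose R0 hR0 using hseq
  -- a large `R`
  obtain ⟨R, hRle, hRbig⟩ : ∃ R : ℕ, (∀ t, R0 t ≤ R) ∧ (∀ t, j0 t ≤ (5 : ℤ) ^ R ∧ n1 ≤ 5 ^ R) := by
    refine ⟨∑ t, (R0 t + (j0 t).toNat) + n1.toNat, fun t => ?_, fun t => ?_⟩
    · have := Finset.single_le_sum (f := fun t => R0 t + (j0 t).toNat) (fun _ _ => Nat.zero_le _)
        (Finset.mem_univ t)
      omega
    · have h0 := Finset.single_le_sum (f := fun t => R0 t + (j0 t).toNat) (fun _ _ => Nat.zero_le _)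
        (Finset.mem_univ t)
      set R := ∑ t, (R0 t + (j0 t).toNat) + n1.toNat
      have h1 : R < 5 ^ R := Nat.lt_pow_self (by norm_num)
      have h2 : ((5 ^ R : ℕ) : ℤ) = (5 : ℤ) ^ R := by push_cast; rfl
      have h3 : (R : ℤ) < (5 : ℤ) ^ R := by rw [← h2]; exact_mod_cast h1
      constructor <;> omega
  have hR1 : n1 ≤ (5 : ℤ) ^ (R + n1.toNat) ∧ 1 ≤ (5 : ℤ) ^ (R + n1.toNat) := by
    set R' := R + n1.toNat
    have h1 : R' < 5 ^ R' := Nat.lt_pow_self (by norm_num)
    have h2 : ((5 ^ R' : ℕ) : ℤ) = (5 : ℤ) ^ R' := by push_cast; rfl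
    have h3 : (R' : ℤ) < (5 : ℤ) ^ R' := by rw [← h2]; exact_mod_cast h1
    constructor <;> omega
  have hmono : (5 : ℤ) ^ R ≤ 5 ^ (R + n1.toNat) := pow_le_pow_right₀ (by norm_num) (by omega)
  set l : ℤ := (5 : ℤ) ^ (R + n1.toNat) with hl
  obtain ⟨z, hz⟩ := exists_elt (k := k) l hR1.2
  obtain ⟨u, hu'⟩ := (hg l).1 (φ l hR1.1 z)
  have hjl : ∀ t, j0 t ≤ l := fun t => (hRbig t).1.trans hmono
  -- expansion of `u`
  have hudec : u = ∑ t, u.1 t • (Free (DD k) d).op (l - d t).toNat (d t) l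
      (by have := hjl t; simp only [j0] at this; omega) (gen t) := by
    apply Subtype.ext
    ext1 s
    have hsum : (∑ t, u.1 t • (Free (DD k) d).op (l - d t).toNat (d t) l
      (by have := hjl t; simp only [j0] at this; omega) (gen t)).1 s =
      ∑ t, u.1 t * ((DD k).c (l - d t).toNat (d t - d s).toNat * (gen t).1 s) := by
      let pr : (Free (DD k) d).M l →+ k := ⟨⟨fun v => v.1 s, rfl⟩, fun _ _ => rfl⟩
      exact map_sum pr _ _
    rw [hsum, Finset.sum_eq_single s]
    · change u.1 s = u.1 s * ((DD k).c (l - d s).toNat (d s - d s).toNat *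
        (Pi.single s 1 : Fin r → k) s)
      rw [sub_self, Int.toNat_zero, DD_c_right, Pi.single_eq_same]; ring
    · intro t _ ht
      change u.1 t * ((DD k).c (l - d t).toNat (d t - d s).toNat *
        (Pi.single t 1 : Fin r → k) s) = 0
      rw [Pi.single_eq_of_ne (Ne.symm ht)]; ring
    · intro h; exact absurd (Finset.mem_univ _) h
  have hzdec : z = ∑ t, u.1 t • w t l (hjl t) := by
    apply (φ l hR1.1).injective
    rw [map_sum, ← hu']
    conv_lhs => rw [hudec]
    rw [map_sum]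
    refine Finset.sum_congr rfl fun t _ => ?_
    rw [map_smul, map_smul, LinearEquiv.apply_symm_apply]
  have hfin : (5 : k) ∣ coord l z 1 := by
    have h1 : coord l z 1 = ∑ t, u.1 t * coord l (w t l (hjl t)) 1 := by
      conv_lhs => rw [hzdec]
      exact map_sum (coordHom l 1) _ _
    rw [h1]
    refine Finset.dvd_sum fun t _ => Dvd.dvd.mul_left ?_ _
    rw [← hvec t l (hjl t), hl]
    exact hR0 t _ ((hRle t).trans (by omega)) 1
  rw [hz] at hfin
  exact hu (isUnit_of_dvd_one hfin)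

end morphism

/-! ### The base ring -/

instance prime5 : (Ideal.span {(5 : ℤ)}).IsPrime :=
  (Ideal.span_singleton_prime (by norm_num)).2 (by norm_num)

/-- the local ring `ℤ_(5)` -/
abbrev Z5 := Localization.AtPrime (Ideal.span {(5 : ℤ)})

lemma five_mem : (5 : Z5) ∈ IsLocalRing.maximalIdeal Z5 := by
  have h : (algebraMap ℤ Z5 5) ∈ IsLocalRing.maximalIdeal Z5 := by
    rw [IsLocalization.AtPrime.to_map_mem_maximal_iff Z5 (Ideal.span {(5 : ℤ)})]
    exact Ideal.mem_span_singleton_self _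
  simpa using h

lemma Z5_noeth : IsNoetherianRing Z5 :=
  IsLocalization.isNoetherianRing (Ideal.span {(5 : ℤ)}).primeCompl Z5 inferInstance

lemma Z5_domain : IsDomain Z5 := by
  infer_instance

lemma Z5_five_ne : (5 : Z5) ≠ 0 := by
  have h : (algebraMap ℤ Z5 5) ≠ 0 := by
    intro h
    have := (IsLocalization.injective Z5
      (Ideal.primeCompl_le_nonZeroDivisors (Ideal.span {(5 : ℤ)}))) (h.trans (map_zero _).symm)
    norm_num at this
  simpa using h

lemma Z5_not_unit : ¬ IsUnit (5 : Z5) := (IsLocalRing.mem_maximalIdeal _).1 five_mem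

lemma Z5_sep (x : Z5) (hx : ∀ R0 : ℕ, ∃ R ≥ R0, (5 : Z5) ^ R ∣ x) : x = 0 := by
  have := Z5_noeth
  have h := Ideal.iInf_pow_eq_bot_of_isDomain (Ideal.span {(5 : Z5)}) (by
    rw [Ne, Ideal.span_singleton_eq_top]
    exact Z5_not_unit)
  rw [← Submodule.mem_bot Z5, ← h, Submodule.mem_iInf]
  intro i
  obtain ⟨R, hR, hd⟩ := hx i
  rw [Ideal.span_singleton_pow, Ideal.mem_span_singleton]
  exact (pow_dvd_pow _ hR).trans hd

lemma Z5_real (a b : Z5) (h : a ^ 2 + b ^ 2 = 0) : a = 0 ∧ b = 0 := by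
  obtain ⟨x, s, hxs⟩ := IsLocalization.exists_mk'_eq (Ideal.span {(5 : ℤ)}).primeCompl a
  obtain ⟨y, t, hyt⟩ := IsLocalization.exists_mk'_eq (Ideal.span {(5 : ℤ)}).primeCompl b
  have hinj := IsLocalization.injective Z5
      (Ideal.primeCompl_le_nonZeroDivisors (Ideal.span {(5 : ℤ)}))
  have h1 : a * algebraMap ℤ Z5 s = algebraMap ℤ Z5 x := by
    rw [← hxs, IsLocalization.mk'_spec]
  have h2 : b * algebraMap ℤ Z5 t = algebraMap ℤ Z5 y := by
    rw [← hyt, IsLocalization.mk'_spec]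
  have h3 : algebraMap ℤ Z5 ((x * t) ^ 2 + (y * s) ^ 2) = 0 := by
    simp only [map_add, map_pow, map_mul]
    rw [← h1, ← h2]
    linear_combination (algebraMap ℤ Z5 s * algebraMap ℤ Z5 t) ^ 2 * h
  have h4 : ((x * t) ^ 2 + (y * s) ^ 2 : ℤ) = 0 := hinj (h3.trans (map_zero _).symm)
  have hs0 : (s : ℤ) ≠ 0 := by
    intro h0
    exact s.2 (by rw [h0]; exact Ideal.zero_mem _)
  have ht0 : (t : ℤ) ≠ 0 := by
    intro h0
    exact t.2 (by rw [h0]; exact Ideal.zero_mem _)
  have h5 : x * t = 0 := by nlinarith [sq_nonneg (x * (t : ℤ)), sq_nonneg (y * (s : ℤ))]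
  have h6 : y * s = 0 := by nlinarith [sq_nonneg (x * (t : ℤ)), sq_nonneg (y * (s : ℤ))]
  have hx : x = 0 := (mul_eq_zero.1 h5).resolve_right ht0
  have hy : y = 0 := (mul_eq_zero.1 h6).resolve_right hs0
  constructor
  · rw [← hxs, hx, IsLocalization.mk'_zero]
  · rw [← hyt, hy, IsLocalization.mk'_zero]

open Classical in
lemma admissible : Admissible (pi5 Z5) := by
  rintro n m _ _ ⟨I, hI, hn, hm⟩
  have hn' : ∃ i, 1 ≤ i ∧ n = 5 ^ i := by
    by_contra hcon
    rw [pi5, if_neg hcon] at hn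
    exact hI.ne_top ((Ideal.eq_top_iff_one I).2 hn)
  have hm' : ∃ i, 1 ≤ i ∧ m = 5 ^ i := by
    by_contra hcon
    rw [pi5, if_neg hcon] at hm
    exact hI.ne_top ((Ideal.eq_top_iff_one I).2 hm)
  obtain ⟨i, _, rfl⟩ := hn'
  obtain ⟨j, _, rfl⟩ := hm'
  rcases le_total i j with h | h
  · exact Or.inl (pow_dvd_pow 5 h)
  · exact Or.inr (pow_dvd_pow 5 h)

open Classical in
/-- **Q1 has a negative answer**: there are a noetherian ring `k`, an admissible sequence `π` with
infinitely many `π_n` in the Jacobson radical, and a morphism of nfp graded `D(π;k)`-modules whose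
kernel is not nfp. -/
theorem result : ∃ (k : Type) (_ : CommRing k) (π : ℕ → k), IsNoetherianRing k ∧ Admissible π ∧
    (∀ n0 : ℕ, ∃ n ≥ n0, 2 ≤ n ∧ π n ∈ Ideal.jacobson (⊥ : Ideal k)) ∧
    ∃ (M N : GrMod k (piData π)) (f : GrHom M N), IsNfp M ∧ IsNfp N ∧ ¬ IsNfp f.kernel := by
  have := Z5_noeth
  have := Z5_domain
  refine ⟨Z5, inferInstance, pi5 Z5, inferInstance, admissible, ?_, trunc 1 (F2 Z5),
    trunc 1 (CC Z5), ff Z5, ?_, ?_, kernel_not_nfp Z5_five_ne Z5_not_unit Z5_sep Z5_real⟩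
  · intro n0
    refine ⟨5 ^ (n0 + 1), ?_, ?_, ?_⟩
    · exact (Nat.lt_pow_self (n := n0 + 1) (by norm_num : 1 < 5)).le.trans' (by omega)
    · have : n0 + 1 < 5 ^ (n0 + 1) := Nat.lt_pow_self (by norm_num)
      omega
    · rw [pi5, if_pos ⟨n0 + 1, by omega, rfl⟩, IsLocalRing.jacobson_eq_maximalIdeal ⊥ bot_ne_top]
      exact five_mem
  · exact isNfp_trunc _ _ (isFinPres_free _) inferInstance (finite_free _)
  · apply isNfp_trunc _ _ (isFinPres_cokernel _) inferInstance
    intro j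
    have := finite_free (D := DD Z5) (fun _ : Fin 1 => 0) j
    exact Module.Finite.quotient Z5 _

end

end Pool.Agent.Results.MP_ae9641_al.NfpKernel
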